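import Pool.Agent.H696R2.NH.Main

set_option autoImplicit false

/-!
# MP_674fd3_lc, Q1: the answer is yes

For every relative Blum measure `(φ, Φ)` (`RelBlum`) there is `g ∈ ℝ₂` such that for every recursive
set `A` and every `t' ∈ ℝ₁` there is a recursive set `B` with `Φ-Comp(B) >_ae t'` such that for all
`t` at once: if `Φ-Comp(A) >_io g □ t` then `Φ^B-Comp(A) >_io t`.

Sets are given by their characteristic functions `ℕ → Bool`; `emptyO` is the empty oracle;
`M.CompIO X A t` is `Φ^X-Comp(A) >_io t` and `M.CompAE X A t` is `Φ^X-Comp(A) >_ae t`.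
-/

namespace Pool.Agent.Results.MP_674fd3_lc.NonHelping

open Pool.Agent.H696R2.NH

theorem result (M : RelBlum) : ∃ g : ℕ → ℕ → ℕ, Computable₂ g ∧
    ∀ A : ℕ → Bool, Computable A → ∀ t' : ℕ → ℕ, Computable t' →
      ∃ B : ℕ → Bool, Computable B ∧ M.CompAE emptyO B t' ∧
        ∀ t : ℕ → ℕ, M.CompIO emptyO A (fun x => g x (t x)) → M.CompIO B A t :=
  main M

end Pool.Agent.Results.MP_674fd3_lc.NonHelping
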